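import Pool.Agent.W682.TW.Stm

/-! # `S_FLD`: the field, its coordinates and the wells along it -/

set_option autoImplicit false

namespace Pool.Agent.W293.TW.Fld

open Pool.Agent.W682.TW

variable {n m : ℕ}

/-- the linear form of a wave vector -/
noncomputable def Lf (n : ℕ) (ι : Ix n) : (Fin 2 → ℝ) →L[ℝ] ℝ :=
  kr n ι 0 • ContinuousLinearMap.proj 0 + kr n ι 1 • ContinuousLinearMap.proj 1

theorem Lf_apply (ι : Ix n) (x : Fin 2 → ℝ) : Lf n ι x = ip (kr n ι) x := by
  simp [Lf, ip]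

theorem Lf_single (ι : Ix n) (i : Fin 2) : Lf n ι (Pi.single i 1) = kr n ι i := by
  rw [Lf_apply, ip]
  fin_cases i <;> simp

theorem ph_eq (ι : Ix n) : ph n ι = fun x => 2 * Real.pi * Lf n ι x := by
  ext x
  rw [Lf_apply, ph]

theorem ph_smooth (ι : Ix n) : ContDiff ℝ ((⊤ : ℕ∞) : WithTop ℕ∞) (ph n ι) := by
  rw [ph_eq]
  exact contDiff_const.mul (Lf n ι).contDiff

theorem ph_hasFDeriv (ι : Ix n) (x : Fin 2 → ℝ) :
    HasFDerivAt (ph n ι) ((2 * Real.pi) • Lf n ι) x := by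
  rw [ph_eq]
  exact (Lf n ι).hasFDerivAt.const_mul (2 * Real.pi)

theorem ph_per (ι : Ix n) (x : Fin 2 → ℝ) (z : Fin 2 → ℤ) :
    ph n ι (x + fun i => (z i : ℝ)) =
      ph n ι x + ((kv n ι 0 * z 0 + kv n ι 1 * z 1 : ℤ) : ℝ) * (2 * Real.pi) := by
  simp only [ph, ip, Pi.add_apply, kr]
  push_cast
  ring

theorem sin_per (ι : Ix n) (x : Fin 2 → ℝ) (z : Fin 2 → ℤ) :
    Real.sin (ph n ι (x + fun i => (z i : ℝ))) = Real.sin (ph n ι x) := by
  rw [ph_per, Real.sin_add_int_mul_two_pi]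

theorem cos_per (ι : Ix n) (x : Fin 2 → ℝ) (z : Fin 2 → ℤ) :
    Real.cos (ph n ι (x + fun i => (z i : ℝ))) = Real.cos (ph n ι x) := by
  rw [ph_per, Real.cos_add_int_mul_two_pi]

theorem slow_comp_fderiv (e : Ix n ≃ Fin m) (σ : ℕ → ℝ) (α : ℝ) (x : Fin 2 → ℝ) (j : Fin m) :
    HasFDerivAt (fun x => slow e σ α x j)
      ((amp n σ α (e.symm j) * Real.cos (ph n (e.symm j) x)) • Lf n (e.symm j)) x := by
  have h1 := ((ph_hasFDeriv (e.symm j) x).sin).const_mul
    (amp n σ α (e.symm j) / (2 * Real.pi))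
  have hpi : (2 * Real.pi) ≠ 0 := by positivity
  have h2 : (amp n σ α (e.symm j) / (2 * Real.pi)) • (Real.cos (ph n (e.symm j) x) •
      ((2 * Real.pi) • Lf n (e.symm j))) =
      (amp n σ α (e.symm j) * Real.cos (ph n (e.symm j) x)) • Lf n (e.symm j) := by
    rw [smul_smul, smul_smul]
    congr 1
    field_simp
  rw [h2] at h1
  exact h1

theorem gr_slow (e : Ix n ≃ Fin m) (σ : ℕ → ℝ) (α : ℝ) (x : Fin 2 → ℝ) (i : Fin 2) (j : Fin m) :
    gr (slow e σ α) x i j =
      amp n σ α (e.symm j) * Real.cos (ph n (e.symm j) x) * kr n (e.symm j) i := by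
  have h1 : HasFDerivAt (slow e σ α) (ContinuousLinearMap.pi fun j =>
      ((amp n σ α (e.symm j) * Real.cos (ph n (e.symm j) x)) • Lf n (e.symm j))) x := by
    rw [hasFDerivAt_pi]
    intro j
    exact slow_comp_fderiv e σ α x j
  simp only [gr, Matrix.of_apply]
  rw [h1.fderiv]
  simp only [ContinuousLinearMap.pi_apply, smul_apply, smul_eq_mul]
  rw [Lf_single]

/-- the coordinates of the total matrix -/
noncomputable def Gv (n : ℕ) (σ : ℕ → ℝ) (α : ℝ) (x : Fin 2 → ℝ) (y : ℝ) : Ix n → ℝ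
  | .inl (.inl _) => 1 / 2 + y
  | .inl (.inr s) => amp n σ α (.inl (.inr s)) * Real.cos (ph n (.inl (.inr s)) x)
  | .inr ι => amp n σ α (.inr ι) * Real.cos (ph n (.inr ι) x)

/-- the total matrix -/
noncomputable def FF (e : Ix n ≃ Fin m) (σ : ℕ → ℝ) (α : ℝ) (x : Fin 2 → ℝ) (y : ℝ) : Mt m :=
  F0 e + gr (slow e σ α) x + Matrix.of (fun (i : Fin 2) (j : Fin m) =>
        if j = e (.inl (.inl ())) ∧ i = 1 then y else 0)

theorem col_FF (e : Ix n ≃ Fin m) (σ : ℕ → ℝ) (α : ℝ) (x : Fin 2 → ℝ) (y : ℝ) (ι : Ix n) :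
    col e (FF e σ α x y) ι = fun i => Gv n σ α x y ι * kr n ι i := by
  ext i
  simp only [col, FF, Matrix.add_apply, Matrix.of_apply, gr_slow, Equiv.symm_apply_apply, F0]
  rcases ι with (u | s) | ι
  · rcases u with ⟨⟩
    fin_cases i
    · simp [Gv, kr, kv, amp]
    · simp [Gv, kr, kv, amp]
  · have h : ¬ (e (.inl (.inr s)) = e (.inl (.inl ()))) := by
      intro h
      have := e.injective h
      simp at this
    simp [h, Gv]
  · have h : ¬ (e (.inr ι) = e (.inl (.inl ()))) := by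
      intro h
      have := e.injective h
      simp at this
    simp [h, Gv]

theorem ip_pos (ι : Ix n) : ip (kr n ι) (kr n ι) ≠ 0 := by
  have hn : (0 : ℝ) ≤ n := Nat.cast_nonneg n
  rcases ι with (u | s) | (i | j)
  · simp [ip, kr, kv]
  · have : 0 < ip (kr n (.inl (.inr s))) (kr n (.inl (.inr s))) := by
      simp only [ip, kr, kv, Matrix.cons_val_zero, Matrix.cons_val_one]
      push_cast
      positivity
    exact this.ne'
  · have : 0 < ip (kr n (.inr (.inl i))) (kr n (.inr (.inl i))) := by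
      simp only [ip, kr, kv, Matrix.cons_val_zero, Matrix.cons_val_one]
      push_cast
      positivity
    exact this.ne'
  · have : 0 < ip (kr n (.inr (.inr j))) (kr n (.inr (.inr j))) := by
      simp only [ip, kr, kv, Matrix.cons_val_zero, Matrix.cons_val_one]
      push_cast
      positivity
    exact this.ne'

theorem Gc_FF (e : Ix n ≃ Fin m) (σ : ℕ → ℝ) (α : ℝ) (x : Fin 2 → ℝ) (y : ℝ) (ι : Ix n) :
    Gc e (FF e σ α x y) ι = Gv n σ α x y ι := by
  rw [Gc, col_FF, div_eq_iff (ip_pos ι)]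
  simp only [ip]
  ring

theorem Oc_FF (e : Ix n ≃ Fin m) (σ : ℕ → ℝ) (α : ℝ) (x : Fin 2 → ℝ) (y : ℝ) (ι : Ix n) :
    Oc e (FF e σ α x y) ι = 0 := by
  rw [Oc, col_FF, div_eq_zero_iff]
  left
  simp only [dt]
  ring

theorem st_FF (e : Ix n ≃ Fin m) (σ : ℕ → ℝ) (α : ℝ) (x : Fin 2 → ℝ) (y : ℝ) :
    st e (FF e σ α x y) = (thx n σ α x + y, Af n α x, Bf n α x) := by
  simp only [st, Gc_FF]
  refine Prod.ext ?_ (Prod.ext ?_ ?_)
  · simp only [Fintype.sum_sum_type, Finset.univ_unique, Finset.sum_singleton, Gv, thx]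
    ring
  · ext i
    simp [Gv, Af, amp]
  · ext j
    simp [Gv, Bf, amp]

theorem dt_ne (ι κ : (Unit ⊕ Fin (2 * n)) ⊕ Fin n) (h : ι ≠ κ) :
    dt (kr n (za n ι)) (kr n (za n κ)) ≠ 0 := by
  have hn : (0 : ℝ) ≤ n := Nat.cast_nonneg n
  rcases ι with (u | s) | i <;> rcases κ with (u' | s') | i'
  · exact absurd (by rcases u; rcases u'; rfl) h
  · simp only [dt, za, kr, kv, Matrix.cons_val_zero, Matrix.cons_val_one]
    push_cast
    nlinarith
  · simp [dt, za, kr, kv]
  · simp only [dt, za, kr, kv, Matrix.cons_val_zero, Matrix.cons_val_one]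
    push_cast
    nlinarith
  · have hs : (s : ℕ) ≠ s' := by
      intro hh
      exact h (by rw [Fin.ext hh])
    have hs' : (s : ℝ) - s' ≠ 0 := by
      rw [sub_ne_zero]
      exact_mod_cast hs
    simp only [dt, za, kr, kv, Matrix.cons_val_zero, Matrix.cons_val_one]
    push_cast
    have h1 : (2 * (n : ℝ) + 2) * ((s' : ℝ) + 2) - ((s : ℝ) + 2) * (2 * (n : ℝ) + 2) =
        -(2 * (n : ℝ) + 2) * ((s : ℝ) - s') := by ring
    rw [h1]
    exact mul_ne_zero (by linarith) hs'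
  · have hs : (s : ℝ) < 2 * n := by
      have := s.2
      exact_mod_cast this
    have hi : (0 : ℝ) ≤ (i' : ℕ) := Nat.cast_nonneg _
    simp only [dt, za, kr, kv, Matrix.cons_val_zero, Matrix.cons_val_one]
    push_cast
    have : 0 < (2 * (n : ℝ) + 2) * ((i' : ℝ) + 1) - ((s : ℝ) + 2) * 1 := by nlinarith
    exact this.ne'
  · simp [dt, za, kr, kv]
  · have hs : (s' : ℝ) < 2 * n := by
      have := s'.2
      exact_mod_cast this
    have hi : (0 : ℝ) ≤ (i : ℕ) := Nat.cast_nonneg _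
    simp only [dt, za, kr, kv, Matrix.cons_val_zero, Matrix.cons_val_one]
    push_cast
    have : 1 * ((s' : ℝ) + 2) - ((i : ℝ) + 1) * (2 * (n : ℝ) + 2) < 0 := by nlinarith
    exact this.ne
  · have hs : (i : ℕ) ≠ i' := by
      intro hh
      exact h (by rw [Fin.ext hh])
    have hs' : (i' : ℝ) - i ≠ 0 := by
      rw [sub_ne_zero]
      exact_mod_cast hs.symm
    simp only [dt, za, kr, kv, Matrix.cons_val_zero, Matrix.cons_val_one]
    push_cast
    have h1 : 1 * ((i' : ℝ) + 1) - ((i : ℝ) + 1) * 1 = (i' : ℝ) - i := by ring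
    rw [h1]
    exact hs'

theorem NN_FF (e : Ix n ≃ Fin m) (σ : ℕ → ℝ) (α : ℝ) (x : Fin 2 → ℝ) (y c : ℝ) :
    NN e c (FF e σ α x y) = -c * ((∑ ι : (Unit ⊕ Fin (2 * n)) ⊕ Fin n, Gv n σ α x y (za n ι)) ^ 2
      - ∑ ι : (Unit ⊕ Fin (2 * n)) ⊕ Fin n, Gv n σ α x y (za n ι) ^ 2) := by
  classical
  unfold NN
  congr 1
  rw [pow_two, Finset.sum_mul_sum, ← Finset.sum_sub_distrib]
  apply Finset.sum_congr rfl
  intro ι _
  have h1 : ∀ κ : (Unit ⊕ Fin (2 * n)) ⊕ Fin n,
      dt (col e (FF e σ α x y) (za n ι)) (col e (FF e σ α x y) (za n κ)) /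
        dt (kr n (za n ι)) (kr n (za n κ)) =
      Gv n σ α x y (za n ι) * Gv n σ α x y (za n κ) -
        (if ι = κ then Gv n σ α x y (za n ι) ^ 2 else 0) := by
    intro κ
    rw [col_FF, col_FF]
    by_cases h : ι = κ
    · rw [if_pos h, ← h]
      have h2 : dt (kr n (za n ι)) (kr n (za n ι)) = 0 := by
        simp only [dt]
        ring
      rw [h2, div_zero]
      ring
    · rw [if_neg h, sub_zero, div_eq_iff (dt_ne ι κ h)]
      simp only [dt]
      ring
  rw [Finset.sum_congr rfl fun κ _ => h1 κ, Finset.sum_sub_distrib, Finset.sum_ite_eq,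
    if_pos (Finset.mem_univ ι)]

theorem main : S_FLD := by
  intro n m e σ α
  refine ⟨⟨?_, ?_⟩, ?_, ?_, ?_⟩
  · rw [contDiff_pi]
    intro j
    exact contDiff_const.mul (Real.contDiff_sin.comp (ph_smooth _))
  · intro x z
    ext j
    simp only [slow, sin_per]
  · intro x z
    simp only [thx, cos_per]
  · apply ContDiff.add
    · apply ContDiff.add
      · exact contDiff_const
      · apply ContDiff.sum
        intro s _
        exact contDiff_const.mul (Real.contDiff_cos.comp (ph_smooth _))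
    · apply ContDiff.sum
      intro s _
      exact contDiff_const.mul (Real.contDiff_cos.comp (ph_smooth _))
  · intro x y Λ k c χ
    change Wm e σ Λ k c χ (FF e σ α x y) = _
    have hSO : SO e (FF e σ α x y) = 0 := by
      simp [SO, Oc_FF]
    rw [Wm, hSO, NN_FF, st_FF]
    have h1 : (∑ ι : (Unit ⊕ Fin (2 * n)) ⊕ Fin n, Gv n σ α x y (za n ι)) =
        thx n σ α x + y := by
      simp only [Fintype.sum_sum_type, Finset.univ_unique, Finset.sum_singleton, Gv, thx, za]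
      ring
    have h2 : (∑ ι : (Unit ⊕ Fin (2 * n)) ⊕ Fin n, Gv n σ α x y (za n ι) ^ 2) =
        (1 / 2 + y) ^ 2 + (∑ s : Fin (2 * n), (amp n σ α (.inl (.inr s))
            * Real.cos (ph n (.inl (.inr s)) x)) ^ 2) + Pool.Agent.W682.TW.sq (Af n α x) := by
      simp only [Fintype.sum_sum_type, Finset.univ_unique, Finset.sum_singleton, Gv, za,
        Pool.Agent.W682.TW.sq, Af, amp]
    rw [h1, h2]
    simp only [wx]
    ring

end Pool.Agent.W293.TW.Fld
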