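import Pool.Agent.W682.TW.Stm

/-! # `S_THB`: bounds for the coarse theta -/

set_option autoImplicit false

namespace Pool.Agent.W293.TW.Thb

open Pool.Agent.W682.TW

theorem main : S_THB := by
  intro n σ hn hσ hS x
  have h2n : 2 * n = 2 ^ 15 := by
    rw [hn]
    norm_num
  have hnR : (n : ℝ) = 16384 := by
    rw [hn]
    norm_num
  clear hn
  set φ : ℝ := 2 * Real.pi * ((2 * (n : ℝ) + 2) * x 0 + 2 * x 1) with hφ
  set y : ℝ := 2 * Real.pi * x 1 with hy
  have h1 : (∑ s : Fin (2 * n), amp n σ (1 / (32 * n)) (.inl (.inr s)) *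
      Real.cos (ph n (.inl (.inr s)) x)) =
      -(7 / 4096) * ∑ s ∈ Finset.range (2 ^ 15), σ s * Real.cos (φ + s * y) := by
    rw [← h2n, ← Fin.sum_univ_eq_sum_range (fun s => σ s * Real.cos (φ + s * y)), Finset.mul_sum]
    apply Finset.sum_congr rfl
    intro s _
    have h3 : ph n (.inl (.inr s)) x = φ + (s : ℕ) * y := by
      rw [hφ, hy]
      simp only [ph, ip, kr, kv]
      simp only [Matrix.cons_val_zero, Matrix.cons_val_one]
      push_cast
      ring
    rw [h3]
    simp only [amp]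
    ring
  have h2 : |∑ s ∈ Finset.range (2 ^ 15), σ s * Real.cos (φ + s * y)| ≤ 256 := by
    have := hS φ y
    apply abs_le_of_sq_le_sq _ (by norm_num)
    calc _ ≤ (2 : ℝ) * 2 ^ 15 := this
      _ = 256 ^ 2 := by norm_num
  have h4 : |∑ i : Fin n, amp n σ (1 / (32 * n)) (.inr (.inl i)) *
      Real.cos (ph n (.inr (.inl i)) x)| ≤ 1 / 32 := by
    calc _ ≤ ∑ i : Fin n, |amp n σ (1 / (32 * n)) (.inr (.inl i)) *
          Real.cos (ph n (.inr (.inl i)) x)| := Finset.abs_sum_le_sum_abs _ _
      _ ≤ ∑ _i : Fin n, (1 / (32 * (n : ℝ))) := by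
        apply Finset.sum_le_sum
        intro i _
        rw [abs_mul]
        have h5 : |amp n σ (1 / (32 * n)) (.inr (.inl i))| = 1 / (32 * (n : ℝ)) := by
          simp only [amp]
          rw [abs_of_nonneg]
          positivity
        rw [h5]
        have h6 := Real.abs_cos_le_one (ph n (.inr (.inl i)) x)
        have h7 : 0 ≤ 1 / (32 * (n : ℝ)) := by positivity
        nlinarith
      _ = 1 / 32 := by
        rw [Finset.sum_const, Finset.card_univ, Fintype.card_fin, nsmul_eq_mul, hnR]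
        norm_num
  unfold thx
  rw [h1]
  rw [abs_le] at h2 h4
  generalize (∑ s ∈ Finset.range (2 ^ 15), σ s * Real.cos (φ + s * y)) = A at *
  generalize (∑ i : Fin n, amp n σ (1 / (32 * n)) (.inr (.inl i)) *
      Real.cos (ph n (.inr (.inl i)) x)) = B at *
  constructor <;> linarith [h2.1, h2.2, h4.1, h4.2]

end Pool.Agent.W293.TW.Thb
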